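import Pool.Agent.E8helper72.HR.Stm

/-! Project HR, piece HR3 (`S_VOL`). -/

set_option autoImplicit false

open MeasureTheory Set Real
open scoped ENNReal Pointwise

namespace Pool.Agent.E8helper9.HR

open H72HR

/-- integral of `ζ² c²` over `0 < ζ`, `ζ² T ≤ 1`. -/
theorem inner_int (c T : ℝ) (hT : 0 < T) :
    ∫⁻ ζ in Ioi (0 : ℝ), ENNReal.ofReal ((c * ζ) ^ 2) *
      {ζ : ℝ | ζ ^ 2 * T ≤ 1}.indicator 1 ζ = ENNReal.ofReal (c ^ 2 / (3 * √T ^ 3)) := by
  have hs : 0 < √T := Real.sqrt_pos.2 hT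
  have e1 : ∫⁻ ζ in Ioi (0 : ℝ), ENNReal.ofReal ((c * ζ) ^ 2) *
      {ζ : ℝ | ζ ^ 2 * T ≤ 1}.indicator 1 ζ =
      ∫⁻ ζ in Ioc (0 : ℝ) (√T)⁻¹, ENNReal.ofReal ((c * ζ) ^ 2) := by
    rw [← lintegral_indicator measurableSet_Ioi, ← lintegral_indicator measurableSet_Ioc]
    congr 1
    ext ζ
    by_cases h0 : 0 < ζ
    · rw [indicator_of_mem (show ζ ∈ Ioi (0 : ℝ) from h0)]
      have key : ζ ^ 2 * T ≤ 1 ↔ ζ ≤ (√T)⁻¹ := by
        rw [le_inv_comm₀ h0 hs]
        constructor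
        · intro h
          rw [show √T = √(T) from rfl]
          apply Real.sqrt_le_iff.2
          refine ⟨by positivity, ?_⟩
          rw [inv_pow, le_inv_comm₀ hT (by positivity)]
          rw [← one_div, le_div_iff₀ hT]; exact h
        · intro h
          have h2 := Real.sqrt_le_iff.1 h
          have h3 := h2.2
          rw [inv_pow, le_inv_comm₀ hT (by positivity), ← one_div, le_div_iff₀ hT] at h3
          exact h3
      by_cases h1 : ζ ^ 2 * T ≤ 1
      · rw [indicator_of_mem (show ζ ∈ {ζ : ℝ | ζ ^ 2 * T ≤ 1} from h1),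
          indicator_of_mem (show ζ ∈ Ioc (0 : ℝ) (√T)⁻¹ from ⟨h0, key.1 h1⟩)]
        simp
      · rw [indicator_of_notMem (show ζ ∉ {ζ : ℝ | ζ ^ 2 * T ≤ 1} from h1),
          indicator_of_notMem (fun h : ζ ∈ Ioc (0 : ℝ) (√T)⁻¹ => h1 (key.2 h.2))]
        simp
    · rw [indicator_of_notMem (show ζ ∉ Ioi (0 : ℝ) from h0),
        indicator_of_notMem (fun h : ζ ∈ Ioc (0 : ℝ) (√T)⁻¹ => h0 h.1)]
  rw [e1, ← ofReal_integral_eq_lintegral_ofReal]
  · congr 1
    rw [← intervalIntegral.integral_of_le (by positivity)]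
    have : ∀ x : ℝ, (c * x) ^ 2 = c ^ 2 * x ^ 2 := fun x => by ring
    simp_rw [this]
    rw [intervalIntegral.integral_const_mul, integral_pow]
    have h3 : (√T) ^ 3 ≠ 0 := by positivity
    rw [inv_pow]
    field_simp
    norm_num
    ring
  · exact (Continuous.integrableOn_Icc (by fun_prop)).mono_set Ioc_subset_Icc_self
  · exact Filter.Eventually.of_forall fun x => by positivity

/-- polar coordinates for the weight `g (|z|)` over `K`. -/
theorem polar_int (K : Set ℂ) (hK : MeasurableSet K) (g : ℝ → ℝ≥0∞) (hg : Measurable g) :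
    ∫⁻ z : ℂ, K.indicator 1 z * g ‖z‖ =
      ∫⁻ r in Ioi (0 : ℝ), wK K r * (ENNReal.ofReal r * g r) := by
  rw [← Complex.lintegral_comp_polarCoord_symm]
  rw [show polarCoord.target = Ioi (0 : ℝ) ×ˢ Ioo (-π) π from rfl]
  rw [Measure.volume_eq_prod, ← Measure.prod_restrict, lintegral_prod]
  · refine setLIntegral_congr_fun measurableSet_Ioi fun r hr => ?_
    have hr0 : 0 < r := hr
    have hm : MeasurableSet {θ : ℝ | θ ∈ Ioo (-π) π ∧
        (r : ℂ) * Complex.exp (θ * Complex.I) ∈ K} := by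
      refine measurableSet_Ioo.inter (hK.preimage ?_)
      fun_prop
    have e : ∀ θ : ℝ, Complex.polarCoord.symm (r, θ) =
        (r : ℂ) * Complex.exp (θ * Complex.I) := by
      intro θ
      rw [Complex.polarCoord_symm_apply, Complex.exp_mul_I]
      push_cast
      ring
    have en : ∀ θ : ℝ, ‖Complex.polarCoord.symm (r, θ)‖ = r := by
      intro θ
      rw [e, norm_mul, Complex.norm_exp_ofReal_mul_I, mul_one, Complex.norm_real,
        Real.norm_of_nonneg hr0.le]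
    unfold wK
    simp only [en, smul_eq_mul]
    rw [← lintegral_indicator measurableSet_Ioo]
    rw [← lintegral_indicator_one hm, ← lintegral_mul_const _ (measurable_one.indicator hm)]
    congr 1
    ext θ
    by_cases h1 : θ ∈ Ioo (-π) π
    · rw [indicator_of_mem h1]
      by_cases h2 : (r : ℂ) * Complex.exp (θ * Complex.I) ∈ K
      · rw [indicator_of_mem (s := K) (by rw [e]; exact h2),
          indicator_of_mem (show θ ∈ {θ : ℝ | θ ∈ Ioo (-π) π ∧
            (r : ℂ) * Complex.exp (θ * Complex.I) ∈ K} from ⟨h1, h2⟩)]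
        simp
      · rw [indicator_of_notMem (s := K) (by rw [e]; exact h2),
          indicator_of_notMem (fun h : θ ∈ {θ : ℝ | θ ∈ Ioo (-π) π ∧
            (r : ℂ) * Complex.exp (θ * Complex.I) ∈ K} => h2 h.2)]
        simp
    · rw [indicator_of_notMem h1,
        indicator_of_notMem (fun h : θ ∈ {θ : ℝ | θ ∈ Ioo (-π) π ∧
          (r : ℂ) * Complex.exp (θ * Complex.I) ∈ K} => h1 h.1)]
      simp
  · refine Measurable.aemeasurable ?_
    have m1 : Measurable fun p : ℝ × ℝ => Complex.polarCoord.symm p := by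
      have : (fun p : ℝ × ℝ => Complex.polarCoord.symm p) = fun p : ℝ × ℝ =>
          (p.1 : ℂ) * Complex.exp (p.2 * Complex.I) := by
        ext p
        rw [Complex.polarCoord_symm_apply, Complex.exp_mul_I]
        push_cast
        ring
      rw [this]
      fun_prop
    have m2 : Measurable (K.indicator (1 : ℂ → ℝ≥0∞)) := measurable_one.indicator hK
    simp only [smul_eq_mul]
    exact (measurable_fst.ennreal_ofReal).mul ((m2.comp m1).mul (hg.comp m1.norm))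

theorem t_VOL : S_VOL := by
  intro P hPc hcone hsnd c hc
  set K : Set ℂ := {z : ℂ | WithLp.toLp 2 (z, (1 : ℝ)) ∈ P} with hKd
  have hKc : IsClosed K := by
    refine hPc.preimage ?_
    exact (WithLp.prod_continuous_toLp 2 ℂ ℝ).comp
      ((continuous_id : Continuous fun z : ℂ => z).prodMk continuous_const)
  have hKm := hKc.measurableSet
  -- the set in the product
  set S : Set (WithLp 2 (ℂ × ℝ)) :=
    {p | WithLp.toLp 2 (c⁻¹ • p.fst, p.snd) ∈ P ∧ ‖p‖ ≤ 1} with hSd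
  have hSc : IsClosed S := by
    refine (hPc.preimage ?_).inter (isClosed_le continuous_norm continuous_const)
    refine (WithLp.prod_continuous_toLp 2 ℂ ℝ).comp ?_
    have := WithLp.prod_continuous_ofLp 2 ℂ ℝ
    exact ((this.fst).const_smul (c⁻¹ : ℝ)).prodMk this.snd
  set S' : Set (ℂ × ℝ) := {q | WithLp.toLp 2 (c⁻¹ • q.1, q.2) ∈ P ∧ ‖q.1‖ ^ 2 + q.2 ^ 2 ≤ 1}
    with hS'd
  have hpre : (WithLp.toLp 2 : ℂ × ℝ → WithLp 2 (ℂ × ℝ)) ⁻¹' S = S' := by
    ext q
    simp only [hSd, hS'd, mem_preimage, mem_ofPred_eq]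
    rw [WithLp.prod_norm_eq_of_L2]
    simp only [Real.norm_eq_abs, sq_abs]
    constructor
    · rintro ⟨h1, h2⟩
      exact ⟨h1, by simpa using (Real.sqrt_le_one.1 h2)⟩
    · rintro ⟨h1, h2⟩
      exact ⟨h1, Real.sqrt_le_one.2 (by simpa using h2)⟩
  rw [← (WithLp.volume_preserving_toLp ℂ ℝ).measure_preimage hSc.measurableSet.nullMeasurableSet,
    hpre]
  have hS'm : MeasurableSet S' := by
    rw [← hpre]
    exact hSc.measurableSet.preimage (WithLp.volume_preserving_toLp ℂ ℝ).measurable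
  rw [Measure.volume_eq_prod, Measure.prod_apply_symm hS'm]
  -- slices
  have hslice : ∀ ζ : ℝ, ζ ≠ 0 → volume ((fun x : ℂ => (x, ζ)) ⁻¹' S') =
      (Ioi (0 : ℝ)).indicator (fun ζ => ENNReal.ofReal ((c * ζ) ^ 2) *
        volume {z : ℂ | z ∈ K ∧ ζ ^ 2 * (1 + c ^ 2 * ‖z‖ ^ 2) ≤ 1}) ζ := by
    intro ζ hζ
    by_cases h0 : 0 < ζ
    · rw [indicator_of_mem (show ζ ∈ Ioi (0 : ℝ) from h0)]
      have hcz : 0 < c * ζ := mul_pos hc h0
      have hset : (fun x : ℂ => (x, ζ)) ⁻¹' S' =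
          (c * ζ) • {z : ℂ | z ∈ K ∧ ζ ^ 2 * (1 + c ^ 2 * ‖z‖ ^ 2) ≤ 1} := by
        ext z
        rw [mem_smul_set_iff_inv_smul_mem₀ hcz.ne']
        simp only [hS'd, mem_preimage, mem_ofPred_eq, hKd]
        have hP : WithLp.toLp 2 (c⁻¹ • z, ζ) ∈ P ↔
            WithLp.toLp 2 ((c * ζ)⁻¹ • z, (1 : ℝ)) ∈ P := by
          constructor
          · intro h
            have := hcone _ h ζ⁻¹ (by positivity)
            convert this using 1
            rw [← WithLp.toLp_smul, Prod.smul_mk, smul_smul, smul_eq_mul,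
              inv_mul_cancel₀ h0.ne', mul_inv, mul_comm]
          · intro h
            have := hcone _ h ζ h0.le
            convert this using 1
            rw [← WithLp.toLp_smul, Prod.smul_mk, smul_smul, smul_eq_mul, mul_one]
            congr 3
            field_simp
        rw [hP, norm_smul, Real.norm_of_nonneg (inv_pos.2 hcz).le]
        refine and_congr_right fun _ => ?_
        have : ζ ^ 2 * (1 + c ^ 2 * ((c * ζ)⁻¹ * ‖z‖) ^ 2) = ‖z‖ ^ 2 + ζ ^ 2 := by
          field_simp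
          ring
        rw [this]
      rw [hset, Measure.addHaar_smul, Complex.finrank_real_complex, abs_of_nonneg (by positivity)]
    · rw [indicator_of_notMem (show ζ ∉ Ioi (0 : ℝ) from h0)]
      rcases lt_or_eq_of_le (not_lt.1 h0) with h1 | h1
      · have : (fun x : ℂ => (x, ζ)) ⁻¹' S' = ∅ := by
          ext z
          simp only [hS'd, mem_preimage, mem_ofPred_eq, mem_empty_iff_false, iff_false]
          rintro ⟨h2, -⟩
          have := hsnd _ h2
          simp only [WithLp.toLp_snd] at this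
          linarith
        rw [this, measure_empty]
      · exact absurd h1 hζ
  have hae : ∀ᵐ ζ : ℝ, ζ ≠ 0 := by
    rw [ae_iff]
    simp
  rw [lintegral_congr_ae (hae.mono hslice), lintegral_indicator measurableSet_Ioi]
  -- write the slice volumes as integrals
  have hmz : ∀ ζ : ℝ, MeasurableSet {z : ℂ | z ∈ K ∧ ζ ^ 2 * (1 + c ^ 2 * ‖z‖ ^ 2) ≤ 1} :=
    fun ζ => hKm.inter (measurableSet_le (show Measurable fun z : ℂ =>
      ζ ^ 2 * (1 + c ^ 2 * ‖z‖ ^ 2) by fun_prop) measurable_const)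
  have hA : ∀ ζ : ℝ, ENNReal.ofReal ((c * ζ) ^ 2) *
      volume {z : ℂ | z ∈ K ∧ ζ ^ 2 * (1 + c ^ 2 * ‖z‖ ^ 2) ≤ 1} =
      ∫⁻ z : ℂ, ENNReal.ofReal ((c * ζ) ^ 2) *
        (K.indicator 1 z * {ζ : ℝ | ζ ^ 2 * (1 + c ^ 2 * ‖z‖ ^ 2) ≤ 1}.indicator 1 ζ) := by
    intro ζ
    rw [← lintegral_indicator_one (hmz ζ), ← lintegral_const_mul _
      (measurable_one.indicator (hmz ζ))]
    congr 1
    ext z
    congr 1
    by_cases h1 : z ∈ K
    · by_cases h2 : ζ ^ 2 * (1 + c ^ 2 * ‖z‖ ^ 2) ≤ 1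
      · rw [indicator_of_mem (show z ∈ {z : ℂ | z ∈ K ∧ ζ ^ 2 * (1 + c ^ 2 * ‖z‖ ^ 2) ≤ 1}
          from ⟨h1, h2⟩), indicator_of_mem h1, indicator_of_mem (show ζ ∈
          {ζ : ℝ | ζ ^ 2 * (1 + c ^ 2 * ‖z‖ ^ 2) ≤ 1} from h2)]
        simp
      · rw [indicator_of_notMem (fun h : z ∈ {z : ℂ | z ∈ K ∧ ζ ^ 2 * (1 + c ^ 2 * ‖z‖ ^ 2) ≤ 1}
          => h2 h.2), indicator_of_notMem (fun h : ζ ∈
          {ζ : ℝ | ζ ^ 2 * (1 + c ^ 2 * ‖z‖ ^ 2) ≤ 1} => h2 h)]
        simp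
    · rw [indicator_of_notMem (fun h : z ∈ {z : ℂ | z ∈ K ∧ ζ ^ 2 * (1 + c ^ 2 * ‖z‖ ^ 2) ≤ 1}
          => h1 h.1), indicator_of_notMem h1]
      simp
  simp_rw [hA]
  rw [lintegral_lintegral_swap]
  · have hB : ∀ z : ℂ, ∫⁻ ζ in Ioi (0 : ℝ), ENNReal.ofReal ((c * ζ) ^ 2) *
        (K.indicator 1 z * {ζ : ℝ | ζ ^ 2 * (1 + c ^ 2 * ‖z‖ ^ 2) ≤ 1}.indicator 1 ζ) =
        K.indicator 1 z * ENNReal.ofReal (c ^ 2 / (3 * √(1 + c ^ 2 * ‖z‖ ^ 2) ^ 3)) := by
      intro z
      rw [← inner_int c (1 + c ^ 2 * ‖z‖ ^ 2) (by positivity), ← lintegral_const_mul]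
      · congr 1
        ext ζ
        ring
      · refine Measurable.mul (by fun_prop) (measurable_one.indicator ?_)
        exact measurableSet_le (show Measurable fun ζ : ℝ => ζ ^ 2 * (1 + c ^ 2 * ‖z‖ ^ 2) by
          fun_prop) measurable_const
    simp_rw [hB]
    rw [polar_int K hKm (fun r => ENNReal.ofReal (c ^ 2 / (3 * √(1 + c ^ 2 * r ^ 2) ^ 3)))
      (by fun_prop)]
    refine setLIntegral_congr_fun measurableSet_Ioi fun r hr => ?_
    have hr0 : (0 : ℝ) < r := hr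
    show wK K r * (ENNReal.ofReal r * ENNReal.ofReal (c ^ 2 / (3 * √(1 + c ^ 2 * r ^ 2) ^ 3))) =
      wK K r * ENNReal.ofReal (kk c r)
    congr 1
    rw [← ENNReal.ofReal_mul hr0.le]
    congr 1
    unfold kk
    ring
  · refine Measurable.aemeasurable ?_
    refine Measurable.mul (by fun_prop) ?_
    refine Measurable.mul ((measurable_one.indicator hKm).comp measurable_snd) ?_
    have : (fun p : ℝ × ℂ => {ζ : ℝ | ζ ^ 2 * (1 + c ^ 2 * ‖p.2‖ ^ 2) ≤ 1}.indicator
        (1 : ℝ → ℝ≥0∞) p.1) = {p : ℝ × ℂ | p.1 ^ 2 * (1 + c ^ 2 * ‖p.2‖ ^ 2) ≤ 1}.indicator 1 := by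
      ext p
      rfl
    show Measurable (fun p : ℝ × ℂ => {ζ : ℝ | ζ ^ 2 * (1 + c ^ 2 * ‖p.2‖ ^ 2) ≤ 1}.indicator
        (1 : ℝ → ℝ≥0∞) p.1)
    rw [this]
    exact measurable_one.indicator (measurableSet_le (show Measurable fun p : ℝ × ℂ =>
      p.1 ^ 2 * (1 + c ^ 2 * ‖p.2‖ ^ 2) by fun_prop) measurable_const)

end Pool.Agent.E8helper9.HR

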